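import Mathlib
import Pool.Agent.H11.IC.Core
import Pool.Agent.H5.RCLift

/-!
MP_002cd3_ag: in dimension four only finitely many groups `H_2(X, ℤ)` modulo algebraic classes occur
for rationally connected varieties `X`, and it is enough to test finitely many varieties.
-/

set_option autoImplicit false

open CategoryTheory CategoryTheory.Limits AlgebraicGeometry

namespace Pool.Agent.Results.MP_002cd3_ag.FiniteTest

open Pool.Agent.H11.IC

/-! ### Definitions -/

/-- projective morphisms: closed in the product of the target with a projective space -/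
def ProjMor {Z T : CSch} (π : Z ⟶ T) : Prop :=
  ∃ (n : ℕ) (a : Z ⟶ PP n), IsClosedImmersion
    (pullback.lift a.left π.left ((Over.w a).trans (Over.w π).symm) :
      Z.left ⟶ pullback (PP n).hom T.hom)

/-- smooth projective families, over a connected base of finite type, whose fibres are rationally
connected varieties of dimension at most `n` -/
structure Family (n : ℕ) {Z T : CSch} (π : Z ⟶ T) : Prop where
  /-- the base is locally of finite type -/
  finite_type : LocallyOfFiniteType T.hom
  /-- the base is quasi-compact -/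
  quasi_compact : QuasiCompact T.hom
  /-- the base is connected -/
  connected : ConnectedSpace T.left
  /-- the family is smooth -/
  smooth : Smooth π.left
  /-- the family is projective -/
  projective : ProjMor π
  /-- the fibres are rationally connected varieties -/
  fibres : ∀ t : Pt T, IsVar (fib π t) ∧ IsRC (fib π t) ∧ dim (fib π t) ≤ n

/-- birational equivalence of smooth projective varieties -/
def BirEq (X Y : CSch) : Prop :=
  ∃ (Z : CSch) (p : Z ⟶ X) (q : Z ⟶ Y), IsVar Z ∧ Birat p ∧ Birat q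

/-- `X` has no dominant rational map to a variety of smaller dimension whose general fibres are
rationally connected of dimension smaller than the dimension of `X` -/
def Primitive (X : CSch) : Prop :=
  ∀ (B : CSch) (r : ℕ), IsVar B → RatFib X B r → dim B < dim X → ¬ ((r : ℕ) < dim X)

/-- MINIMAL MODEL PROGRAM [Birkar, Cascini, Hacon, McKernan 2010] and BOUNDEDNESS of terminal
Fano varieties [Birkar, Ann. of Math. 193 (2021)]: a primitive rationally connected variety is
birational to a terminal Fano variety, and these form a bounded family. -/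
def PrimitiveBounded : Prop :=
  ∀ n : ℕ, ∃ (k : ℕ) (Z T : Fin k → CSch) (π : ∀ i, Z i ⟶ T i), (∀ i, Family n (π i)) ∧
    ∀ X : CSch, IsVar X → IsRC X → dim X ≤ n → Primitive X →
      ∃ (i : Fin k) (t : Pt (T i)), BirEq X (fib (π i) t)

/-- DEFORMATION INVARIANCE [Voisin, Remarks on curve classes on rationally connected varieties,
Clay Math. Proc. 18 (2013)] -/
def DeformationInvariance : Prop :=
  ∀ (n : ℕ) {Z T : CSch} (π : Z ⟶ T), Family n π → ∀ s t : Pt T,
    Nonempty (HH (fib π s) ⧸ Alg (fib π s) ≃+ HH (fib π t) ⧸ Alg (fib π t))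

/-- Further published theorems about smooth projective complex varieties. -/
structure Further : Prop where
  /-- [Voisin 2006]: Q1 holds in dimension at most three. -/
  voisin : V 3
  /-- boundedness -/
  primitive_bounded : PrimitiveBounded
  /-- deformation invariance -/
  deformation : DeformationInvariance

/-! ### The proof -/

theorem GenRC.mono {X B : CSch} {f : X ⟶ B} {r s : ℕ} (h : r ≤ s) (hf : GenRC f r) :
    GenRC f s := by
  obtain ⟨U, hU, h2⟩ := hf
  exact ⟨U, hU, fun b hb => ⟨(h2 b hb).1, (h2 b hb).2.1, (h2 b hb).2.2.trans (by exact_mod_cast h)⟩⟩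

theorem mem_of_Q1 {X : CSch} (h : Q1 X) (α : HH X) : α ∈ Alg X := by
  unfold Q1 at h
  rw [h]
  exact AddSubgroup.mem_top _

theorem fibAlg_of_T (L : Literature) {X B : CSch} (f : X ⟶ B) (r : ℕ) (hX : IsVar X)
    (hB : IsVar B) (hf : GenRC f r) (hT : T r) : FibAlg 1 f := by
  obtain ⟨U, hU, h⟩ := L.slices f r hX hB hf
  refine ⟨U, hU, fun b hb a => ?_⟩
  obtain ⟨Y, Γ, g, j, k, hY, hΓ, hg, hk⟩ := h b hb
  rw [← hk, push_comp, ← map_nsmul]
  exact push_mem_Alg j (mem_of_Q1 (hT Y Γ g hY hΓ hg) _)

theorem q1_of_fibration (L : Literature) {X B : CSch} (r : ℕ) (hX : IsVar X) (hB : IsVar B)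
    (hf : RatFib X B r) (hT : T r) (h : Q1 B) : Q1 X := by
  obtain ⟨Y, p, f, hY, hp, hf⟩ := hf
  have h1 := (core L 1 f r hY hB hf fun X' B' f' q hX' hB' _ hf' =>
      fibAlg_of_T L f' r hX' hB' hf' hT).2
  unfold Q1
  rw [eq_top_iff]
  intro α _
  obtain ⟨ζ, rfl⟩ := push_surjective L p hY hX hp α
  have h2 := h1 ζ (mem_of_Q1 h _)
  rw [one_nsmul] at h2
  exact push_mem_Alg p h2

theorem quotient_iso {A A' : Type} [AddCommGroup A] [AddCommGroup A'] (S : AddSubgroup A)
    (S' : AddSubgroup A') (φ : A →+ A') (h : Function.Surjective φ)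
    (h2 : ∀ a, φ a ∈ S' ↔ a ∈ S) : Nonempty (A ⧸ S ≃+ A' ⧸ S') := by
  have hk : ((QuotientAddGroup.mk' S').comp φ).ker = S := by
    ext a
    rw [AddMonoidHom.mem_ker, AddMonoidHom.comp_apply, QuotientAddGroup.mk'_apply,
      QuotientAddGroup.eq_zero_iff]
    exact h2 a
  have hs : Function.Surjective ((QuotientAddGroup.mk' S').comp φ) :=
    (QuotientAddGroup.mk'_surjective S').comp h
  exact ⟨(QuotientAddGroup.quotientAddEquivOfEq hk.symm).trans
    (QuotientAddGroup.quotientKerEquivOfSurjective _ hs)⟩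

theorem birEq_iso (L : Literature) {X Y : CSch} (hX : IsVar X) (hY : IsVar Y) (h : BirEq X Y) :
    Nonempty (HH X ⧸ Alg X ≃+ HH Y ⧸ Alg Y) := by
  obtain ⟨Z, p, q, hZ, hp, hq⟩ := h
  obtain ⟨e⟩ := quotient_iso _ _ (push p) (push_surjective L p hZ hX hp) fun α =>
    ⟨L.birational p hZ hX hp α, push_mem_Alg p⟩
  obtain ⟨e'⟩ := quotient_iso _ _ (push q) (push_surjective L q hZ hY hq) fun α =>
    ⟨L.birational q hZ hY hq α, push_mem_Alg q⟩
  exact ⟨e.symm.trans e'⟩

theorem le_of_lt_succ {a : WithBot ℕ∞} {m : ℕ} (h : a < ((m + 1 : ℕ) : WithBot ℕ∞)) :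
    a ≤ (m : ℕ) := by
  induction a using WithBot.recBotCoe with
  | bot => exact bot_le
  | coe a =>
    have h1 : a < ((m + 1 : ℕ) : ℕ∞) := by exact_mod_cast h
    have h2 : a ≤ (m : ℕ∞) := by
      push_cast at h1
      exact Order.le_of_lt_add_one h1
    exact_mod_cast h2

/-- Let `n ≤ 3`, or suppose that Q1 holds in dimension `n` and that all classes are algebraic on the
fibrations over curves with rationally connected fibres of dimension at most `n`. Then there are
finitely many rationally connected varieties `E` of dimension at most `n + 1` such that for every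
rationally connected variety `X` of dimension at most `n + 1` the group `H_2(X, ℤ)` modulo algebraic
classes is trivial or isomorphic to that of one of the varieties `E`. -/
theorem result (L : Literature) (M : Further) (n : ℕ) (h : n ≤ 3 ∨ V n ∧ T n) :
    ∃ S : Set CSch, S.Finite ∧ (∀ E ∈ S, IsVar E ∧ IsRC E ∧ dim E ≤ (n + 1 : ℕ)) ∧
      ∀ X : CSch, IsVar X → IsRC X → dim X ≤ (n + 1 : ℕ) →
        Q1 X ∨ ∃ E ∈ S, Nonempty (HH X ⧸ Alg X ≃+ HH E ⧸ Alg E) := by
  obtain ⟨hV, hT⟩ : V n ∧ T n := by
    rcases h with h | h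
    · exact ⟨fun X hX hR hd => M.voisin X hX hR (hd.trans (by exact_mod_cast h)),
        fun Y Γ g hY hΓ hg => L.tian Y Γ g hY hΓ (GenRC.mono h hg)⟩
    · exact h
  obtain ⟨k, Z, T', π, hfam, hprim⟩ := M.primitive_bounded (n + 1)
  let I : Type := {i : Fin k // Nonempty (Pt (T' i))}
  let E : I → CSch := fun i => fib (π i.1) i.2.some
  refine ⟨Set.range E, Set.finite_range E, ?_, ?_⟩
  · rintro _ ⟨i, rfl⟩
    exact (hfam i.1).fibres _
  · intro X hX hR hd
    by_cases hp : Primitive X
    · right
      obtain ⟨i, t, hb⟩ := hprim X hX hR hd hp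
      refine ⟨_, ⟨⟨i, ⟨t⟩⟩, rfl⟩, ?_⟩
      obtain ⟨e⟩ := birEq_iso L hX ((hfam i).fibres t).1 hb
      obtain ⟨e'⟩ := M.deformation (n + 1) (π i) (hfam i) t (Nonempty.some ⟨t⟩)
      exact ⟨e.trans e'⟩
    · left
      unfold Primitive at hp
      push Not at hp
      obtain ⟨B, r, hB, hf, hdB, hr⟩ := hp
      have hRB : IsRC B := by
        obtain ⟨Y, p, f, hY, hp, hf⟩ := hf
        exact Pool.Agent.H5.RCImage.rc_image f r hY hB hf (Pool.Agent.H5.RCLift.rc_lift p hY hX hp hR)
      have h1 : dim B ≤ n := le_of_lt_succ (hdB.trans_le hd)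
      have h2 : r ≤ n := by exact_mod_cast le_of_lt_succ (hr.trans_le hd)
      have hf' : RatFib X B n := by
        obtain ⟨Y, p, f, hY, hp, hf⟩ := hf
        exact ⟨Y, p, f, hY, hp, GenRC.mono h2 hf⟩
      exact q1_of_fibration L n hX hB hf' hT (hV B hB hRB h1)

end Pool.Agent.Results.MP_002cd3_ag.FiniteTest
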