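import Mathlib
import Pool.Agent.H11.IC.Core
import Pool.Agent.H5.RCLift
import Pool.Agent.H5.RCImage

/-!
MP_002cd3_ag: the group of integral curve classes modulo algebraic classes is the same for the total
space and the base of a fibration in rationally connected varieties, under a hypothesis on the
fibres which holds for fibres of dimension at most three.
-/

set_option autoImplicit false

open CategoryTheory CategoryTheory.Limits AlgebraicGeometry

namespace Pool.Agent.Results.MP_002cd3_ag.RCFibrations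

open Pool.Agent.H11.IC

theorem GenRC.mono {X B : CSch} {f : X ⟶ B} {r s : ℕ} (h : r ≤ s) (hf : GenRC f r) :
    GenRC f s := by
  obtain ⟨U, hU, h2⟩ := hf
  exact ⟨U, hU, fun b hb => ⟨(h2 b hb).1, (h2 b hb).2.1, (h2 b hb).2.2.trans (by exact_mod_cast h)⟩⟩

theorem mem_of_Q1 {X : CSch} (h : Q1 X) (α : HH X) : α ∈ Alg X := by
  unfold Q1 at h
  rw [h]
  exact AddSubgroup.mem_top _

theorem fibAlg_of_T (L : Literature) {X B : CSch} (f : X ⟶ B) (r : ℕ) (hX : IsVar X)
    (hB : IsVar B) (hf : GenRC f r) (hT : T r) : FibAlg 1 f := by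
  obtain ⟨U, hU, h⟩ := L.slices f r hX hB hf
  refine ⟨U, hU, fun b hb a => ?_⟩
  obtain ⟨Y, Γ, g, j, k, hY, hΓ, hg, hk⟩ := h b hb
  rw [← hk, push_comp, ← map_nsmul]
  exact push_mem_Alg j (mem_of_Q1 (hT Y Γ g hY hΓ hg) _)

theorem fibAlg_of_V (L : Literature) {X B : CSch} (f : X ⟶ B) (r : ℕ) (hX : IsVar X)
    (hB : IsVar B) (hR : IsRC B) (hf : GenRC f r) (hV : V (r + 1)) : FibAlg 1 f := by
  obtain ⟨U, hU, h⟩ := L.rational_slices f r hX hB hR hf
  refine ⟨U, hU, fun b hb a => ?_⟩
  obtain ⟨Y, j, k, hY, hR', hd, hk⟩ := h b hb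
  rw [← hk, push_comp, ← map_nsmul]
  exact push_mem_Alg j (mem_of_Q1 (hV Y hY hR' hd) _)

theorem core_one (L : Literature) {X B : CSch} (f : X ⟶ B) (r : ℕ) (hX : IsVar X)
    (hB : IsVar B) (hf : GenRC f r)
    (hfib : ∀ (X' B' : CSch) (f' : X' ⟶ B') (q : B' ⟶ B), IsVar X' → IsVar B' → Birat q →
      GenRC f' r → FibAlg 1 f') :
    Function.Surjective (push f) ∧ ∀ α : HH X, push f α ∈ Alg B ↔ α ∈ Alg X := by
  obtain ⟨h1, h2⟩ := core L 1 f r hX hB hf hfib
  refine ⟨h1, fun α => ⟨fun h => ?_, push_mem_Alg f⟩⟩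
  have h3 := h2 α h
  rwa [one_nsmul] at h3

theorem main (L : Literature) {X B : CSch} (f : X ⟶ B) (r : ℕ) (hX : IsVar X)
    (hB : IsVar B) (hf : GenRC f r) (h : r ≤ 3 ∨ T r ∨ (IsRC B ∧ V (r + 1))) :
    Function.Surjective (push f) ∧ ∀ α : HH X, push f α ∈ Alg B ↔ α ∈ Alg X := by
  rcases h with h | h | ⟨hR, h⟩
  · exact core_one L f 3 hX hB (GenRC.mono h hf) fun X' B' f' q hX' hB' _ hf' =>
      fibAlg_of_T L f' 3 hX' hB' hf' L.tian
  · exact core_one L f r hX hB hf fun X' B' f' q hX' hB' _ hf' =>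
      fibAlg_of_T L f' r hX' hB' hf' h
  · exact core_one L f r hX hB hf fun X' B' f' q hX' hB' hq hf' =>
      fibAlg_of_V L f' r hX' hB' (Pool.Agent.H5.RCLift.rc_lift q hB' hB hq hR) hf' h

/-- a homomorphism which is surjective and detects a subgroup induces an isomorphism of the
quotients -/
theorem quotient_iso {A A' : Type} [AddCommGroup A] [AddCommGroup A'] (S : AddSubgroup A)
    (S' : AddSubgroup A') (φ : A →+ A') (h : Function.Surjective φ)
    (h2 : ∀ a, φ a ∈ S' ↔ a ∈ S) :
    ∃ e : A ⧸ S ≃+ A' ⧸ S', ∀ a : A, e (QuotientAddGroup.mk a) = QuotientAddGroup.mk (φ a) := by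
  have hle : S ≤ S'.comap φ := fun a ha => (h2 a).2 ha
  have hb : Function.Bijective (QuotientAddGroup.map S S' φ hle) := by
    constructor
    · rw [injective_iff_map_eq_zero]
      intro x
      induction x using QuotientAddGroup.induction_on with
      | H a =>
        intro hx
        rw [QuotientAddGroup.map_mk, QuotientAddGroup.eq_zero_iff] at hx
        exact (QuotientAddGroup.eq_zero_iff a).2 ((h2 a).1 hx)
    · intro y
      induction y using QuotientAddGroup.induction_on with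
      | H b =>
        obtain ⟨a, rfl⟩ := h b
        exact ⟨QuotientAddGroup.mk a, QuotientAddGroup.map_mk S S' φ hle a⟩
  exact ⟨AddEquiv.ofBijective _ hb, fun a => QuotientAddGroup.map_mk S S' φ hle a⟩

theorem birational_iso (L : Literature) {X' X : CSch} (p : X' ⟶ X) (hX' : IsVar X')
    (hX : IsVar X) (hp : Birat p) : ∃ e : HH X' ⧸ Alg X' ≃+ HH X ⧸ Alg X,
      ∀ α : HH X', e (QuotientAddGroup.mk α) = QuotientAddGroup.mk (push p α) :=
  quotient_iso _ _ (push p) (push_surjective L p hX' hX hp) fun α =>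
    ⟨L.birational p hX' hX hp α, push_mem_Alg p⟩

theorem iso (L : Literature) {X Y B : CSch} (p : Y ⟶ X) (f : Y ⟶ B) (r : ℕ) (hX : IsVar X)
    (hY : IsVar Y) (hB : IsVar B) (hp : Birat p) (hf : GenRC f r)
    (h : r ≤ 3 ∨ T r ∨ (IsRC B ∧ V (r + 1))) :
    ∃ e : HH X ⧸ Alg X ≃+ HH B ⧸ Alg B,
      ∀ α : HH Y, e (QuotientAddGroup.mk (push p α)) = QuotientAddGroup.mk (push f α) := by
  obtain ⟨h1, h2⟩ := main L f r hY hB hf h
  obtain ⟨e, he⟩ := birational_iso L p hY hX hp
  obtain ⟨e', he'⟩ := quotient_iso _ _ (push f) h1 h2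
  refine ⟨e.symm.trans e', fun α => ?_⟩
  rw [AddEquiv.trans_apply, ← he, AddEquiv.symm_apply_apply, he']

/-- Let `X ⇢ B` be a dominant rational map of smooth projective complex varieties, given by
morphisms `p : Y → X`, birational, and `f : Y → B`, whose general fibres are rationally connected of
dimension at most `r`.

If `X` is rationally connected, `r ≤ 3`, `dim B ≤ 3` and Q1 holds in dimension three (Voisin's
theorem), then Q1 holds for `X`.

Suppose that `r ≤ 3`, or that all classes are algebraic on fibrations over curves with such fibres,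
or that `B` is rationally connected and Q1 holds in dimension `r + 1`. Then the rational map induces
an isomorphism from `H_2(X, ℤ)` modulo algebraic classes onto `H_2(B, ℤ)` modulo algebraic
classes. -/
theorem result (L : Literature) {X Y B : CSch} (p : Y ⟶ X) (f : Y ⟶ B) (r : ℕ) (hX : IsVar X)
    (hY : IsVar Y) (hB : IsVar B) (hp : Birat p) (hf : GenRC f r) :
    (IsRC X → r ≤ 3 → dim B ≤ 3 → V 3 → Q1 X) ∧
    ((r ≤ 3 ∨ T r ∨ (IsRC B ∧ V (r + 1))) →
      ∃ e : HH X ⧸ Alg X ≃+ HH B ⧸ Alg B,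
        ∀ α : HH Y, e (QuotientAddGroup.mk (push p α)) = QuotientAddGroup.mk (push f α)) := by
  refine ⟨fun hR hr hd hV => ?_, iso L p f r hX hY hB hp hf⟩
  obtain ⟨e, -⟩ := iso L p f r hX hY hB hp hf (Or.inl hr)
  have hRB : IsRC B :=
    Pool.Agent.H5.RCImage.rc_image f r hY hB hf (Pool.Agent.H5.RCLift.rc_lift p hY hX hp hR)
  have hQ : Q1 B := hV B hB hRB hd
  unfold Q1
  rw [eq_top_iff]
  intro α _
  have h1 : e (QuotientAddGroup.mk α) = 0 := by
    induction e (QuotientAddGroup.mk α) using QuotientAddGroup.induction_on with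
    | H b => exact (QuotientAddGroup.eq_zero_iff b).2 (mem_of_Q1 hQ b)
  have h2 : (QuotientAddGroup.mk α : HH X ⧸ Alg X) = 0 := by
    rw [← map_zero e] at h1
    exact e.injective h1
  exact (QuotientAddGroup.eq_zero_iff α).1 h2

end Pool.Agent.Results.MP_002cd3_ag.RCFibrations
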