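import Mathlib
import Pool.Agent.H11.IC.Core
import Pool.Agent.H5.RCLift

/-!
MP_002cd3_ag: it is enough to prove Q1 for the rationally connected varieties `X` which have no
fibration in rationally connected varieties of dimension at most `dim X - 2`.
-/

set_option autoImplicit false

open CategoryTheory CategoryTheory.Limits AlgebraicGeometry

namespace Pool.Agent.Results.MP_002cd3_ag.Reduction

open Pool.Agent.H11.IC

/-- `X` has no dominant rational map to a variety of smaller dimension whose general fibres are
rationally connected of dimension at most `dim X - 2` -/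
def Prim (X : CSch) : Prop :=
  ∀ (B : CSch) (r : ℕ), IsVar B → RatFib X B r → dim B < dim X → ¬ ((r + 1 : ℕ) < dim X)

theorem mem_of_Q1 {X : CSch} (h : Q1 X) (α : HH X) : α ∈ Alg X := by
  unfold Q1 at h
  rw [h]
  exact AddSubgroup.mem_top _

theorem fibAlg_of_V (L : Literature) {X B : CSch} (f : X ⟶ B) (r : ℕ) (hX : IsVar X)
    (hB : IsVar B) (hR : IsRC B) (hf : GenRC f r) (hV : V (r + 1)) : FibAlg 1 f := by
  obtain ⟨U, hU, h⟩ := L.rational_slices f r hX hB hR hf
  refine ⟨U, hU, fun b hb a => ?_⟩
  obtain ⟨Y, j, k, hY, hR', hd, hk⟩ := h b hb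
  rw [← hk, push_comp, ← map_nsmul]
  exact push_mem_Alg j (mem_of_Q1 (hV Y hY hR' hd) _)

theorem q1_of_fibration (L : Literature) {X B : CSch} (r : ℕ) (hX : IsVar X) (hB : IsVar B)
    (hR : IsRC B) (hf : RatFib X B r) (hV : V (r + 1)) (h : Q1 B) : Q1 X := by
  obtain ⟨Y, p, f, hY, hp, hf⟩ := hf
  have h1 := (core L 1 f r hY hB hf fun X' B' f' q hX' hB' hq hf' =>
      fibAlg_of_V L f' r hX' hB' (Pool.Agent.H5.RCLift.rc_lift q hB' hB hq hR) hf' hV).2
  unfold Q1
  rw [eq_top_iff]
  intro α _
  obtain ⟨ζ, rfl⟩ := push_surjective L p hY hX hp α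
  have h2 := h1 ζ (mem_of_Q1 h _)
  rw [one_nsmul] at h2
  exact push_mem_Alg p h2

theorem V.mono {m n : ℕ} (h : m ≤ n) (hV : V n) : V m := fun X hX hR hd =>
  hV X hX hR (hd.trans (by exact_mod_cast h))

theorem le_of_lt_succ {a : WithBot ℕ∞} {m : ℕ} (h : a < ((m + 1 : ℕ) : WithBot ℕ∞)) :
    a ≤ (m : ℕ) := by
  induction a using WithBot.recBotCoe with
  | bot => exact bot_le
  | coe a =>
    have h1 : a < ((m + 1 : ℕ) : ℕ∞) := by exact_mod_cast h
    have h2 : a ≤ (m : ℕ∞) := by
      push_cast at h1
      exact Order.le_of_lt_add_one h1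
    exact_mod_cast h2

/-- Q1 holds in all dimensions up to `n` if it holds for the rationally connected varieties `X` of
dimension at most `n` which have no dominant rational map to a variety of smaller dimension whose
general fibres are rationally connected of dimension at most `dim X - 2`. -/
theorem result (L : Literature) (n : ℕ)
    (h : ∀ X : CSch, IsVar X → IsRC X → dim X ≤ n → Prim X → Q1 X) : V n := by
  have key : ∀ m : ℕ, m ≤ n → V m := by
    intro m
    induction m with
    | zero =>
      intro _ X hX hR hd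
      refine h X hX hR (hd.trans (by exact_mod_cast Nat.zero_le n)) ?_
      intro B r _ _ _ hr
      have h1 := hr.trans_le hd
      exact absurd h1 (not_lt.2 (by exact_mod_cast Nat.zero_le _))
    | succ m ih =>
      intro hm X hX hR hd
      by_cases hp : Prim X
      · exact h X hX hR (hd.trans (by exact_mod_cast hm)) hp
      · unfold Prim at hp
        push Not at hp
        obtain ⟨B, r, hB, hf, hdB, hr⟩ := hp
        have hV := ih (by omega)
        have hRB : IsRC B := by
          obtain ⟨Y, p, f, hY, hp, hf⟩ := hf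
          exact Pool.Agent.H5.RCImage.rc_image f r hY hB hf (Pool.Agent.H5.RCLift.rc_lift p hY hX hp hR)
        have h1 : dim B ≤ m := le_of_lt_succ (hdB.trans_le hd)
        have h2 : r + 1 ≤ m := by exact_mod_cast le_of_lt_succ (hr.trans_le hd)
        exact q1_of_fibration L r hX hB hRB hf (V.mono h2 hV) (hV B hB hRB h1)
  exact key n le_rfl

end Pool.Agent.Results.MP_002cd3_ag.Reduction
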