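import Mathlib
import Pool.Agent.H11.IC.Defs
import Pool.Agent.H11.IC.Point

/-!
MP_002cd3_ag: for every `n` there is a number `N > 0` such that `N H_2(X, ℤ)` is generated by the
classes of algebraic curves, for all smooth projective rationally connected complex varieties `X`
of dimension at most `n`.
-/

set_option autoImplicit false

open CategoryTheory CategoryTheory.Limits AlgebraicGeometry

namespace Pool.Agent.Results.MP_002cd3_ag.UniformBound

open Pool.Agent.H11.IC

/-! ### Definitions -/

/-- generically finite of degree `d`: the general fibre consists of `d` points -/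
def GenFin {X Y : CSch} (f : X ⟶ Y) (d : ℕ) : Prop :=
  0 < d ∧ ∃ U : Y.left.Opens, (U : Set Y.left).Nonempty ∧
    ∀ y : Pt Y, y.pt ∈ U → Nat.card {x : Pt X // mapPt f x = y} = d

/-- projective morphisms: closed in the product of the target with a projective space -/
def ProjMor {Z T : CSch} (π : Z ⟶ T) : Prop :=
  ∃ (n : ℕ) (a : Z ⟶ PP n), IsClosedImmersion
    (pullback.lift a.left π.left ((Over.w a).trans (Over.w π).symm) :
      Z.left ⟶ pullback (PP n).hom T.hom)

/-- smooth projective families, over a base of finite type, whose fibres are rationally connected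
varieties of dimension at most `n` -/
structure Family (n : ℕ) {Z T : CSch} (π : Z ⟶ T) : Prop where
  /-- the base is locally of finite type -/
  finite_type : LocallyOfFiniteType T.hom
  /-- the base is quasi-compact -/
  quasi_compact : QuasiCompact T.hom
  /-- the family is smooth -/
  smooth : Smooth π.left
  /-- the family is projective -/
  projective : ProjMor π
  /-- the fibres are rationally connected varieties -/
  fibres : ∀ t : Pt T, IsVar (fib π t) ∧ IsRC (fib π t) ∧ dim (fib π t) ≤ n

/-- `f : X → B` is birational over `B` to the pull-back of `π : Z → T` under a rational map `τ` from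
`B` to `T`: a nonempty open subset `V` of `X` is isomorphic over an open subset `U` of `B` to an
open subset of `Z ×_T U` -/
def PulledBack {X B Z T : CSch} (f : X ⟶ B) (π : Z ⟶ T) : Prop :=
  ∃ (U : B.left.Opens) (τ : opn B U ⟶ T) (V : X.left.Opens) (a : opn X V ⟶ opn B U)
    (j : opn X V ⟶ Z) (h : j.left ≫ π.left = a.left ≫ τ.left), (V : Set X.left).Nonempty ∧
    a ≫ opnι B U = opnι X V ≫ f ∧ IsOpenImmersion (pullback.lift j.left a.left h)

/-- the product with the projective line -/
noncomputable def cyl (W : CSch) : CSch := Over.mk (pullback.fst W.hom (PP 1).hom ≫ W.hom)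

/-- the projection of the cylinder -/
noncomputable def cylPr (W : CSch) : cyl W ⟶ W := Over.homMk (pullback.fst W.hom (PP 1).hom) rfl

/-- There is a rational map from `W × ℙ¹` to `X` which on one section is generically finite of
degree `d` and on another one factors through `s : B → X`. Here `κ : P → W × ℙ¹` is a birational
morphism such that the rational map is a morphism `H` on `P`, and `i₀ : W₀ → P`, `i₁ : W₁ → P` are
smooth models of the two sections. -/
def JoinedTo {X B : CSch} (s : B ⟶ X) (d : ℕ) : Prop :=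
  ∃ (W P W₀ W₁ : CSch) (κ : P ⟶ cyl W) (H : P ⟶ X) (i₀ : W₀ ⟶ P) (i₁ : W₁ ⟶ P) (e : W₀ ⟶ B),
    IsVar W ∧ IsVar P ∧ IsVar W₀ ∧ IsVar W₁ ∧ Birat κ ∧ Birat (i₀ ≫ κ ≫ cylPr W) ∧
    Birat (i₁ ≫ κ ≫ cylPr W) ∧ i₀ ≫ H = e ≫ s ∧ GenFin (i₁ ≫ H) d

/-- After a base change `g : B₁ → B` of degree `e ≤ d` the morphism `f : X → B` has a section `s`
(defined on a modification `B₂` of `B₁`), to which a generically finite cover of the total space
`X₁` of degree at most `d` is joined by rational curves. -/
def Boundedly {X B : CSch} (f : X ⟶ B) (d : ℕ) : Prop :=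
  ∃ (B₁ B₂ X₁ : CSch) (g : B₁ ⟶ B) (h : X₁ ⟶ X) (f₁ : X₁ ⟶ B₁) (s : B₂ ⟶ X₁) (e e' : ℕ),
    IsVar B₁ ∧ IsVar B₂ ∧ IsVar X₁ ∧ h ≫ f = f₁ ≫ g ∧ GenFin g e ∧ GenFin h e ∧
    Birat (s ≫ f₁) ∧ e ≤ d ∧ e' ≤ d ∧ JoinedTo s e'

/-- fibrations whose general fibres are rationally connected of dimension at most `n`; for `n = 0`
these are the birational morphisms -/
def RCFib {X B : CSch} (f : X ⟶ B) : ℕ → Prop
  | 0 => Birat f
  | n + 1 => GenRC f (n + 1)

/-! ### The published theorems which are used -/

/-- BIRATIONAL MORPHISMS are surjective on `H_2` and injective modulo algebraic classes. -/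
def BirationalInvariance : Prop :=
  ∀ {X' X : CSch} (p : X' ⟶ X), IsVar X' → IsVar X → Birat p →
    Function.Surjective (push p) ∧ ∀ α : HH X', push p α ∈ Alg X → α ∈ Alg X'

/-- THE DEGREE FORMULA `u_* u^! = d`. -/
def DegreeFormula : Prop :=
  ∀ {W Y : CSch} (u : W ⟶ Y) (d : ℕ), IsVar W → IsVar Y → GenFin u d →
    ∀ α : HH Y, d • α ∈ (push u).range

/-- TRANSFER. Let `g : B₁ → B` be generically finite of degree `d` and `h : X₁ → X` its base
change by `f : X → B`. Then `α₁ = h^! α` has the properties stated: `f₁_* h^! α - g^! f_* α` is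
the image of `α` under a correspondence which is supported over a proper closed subset of `X`,
hence algebraic, and `g^!` preserves algebraic classes. -/
def Transfer : Prop :=
  ∀ {X B X₁ B₁ : CSch} (f : X ⟶ B) (g : B₁ ⟶ B) (h : X₁ ⟶ X) (f₁ : X₁ ⟶ B₁) (n d : ℕ),
    IsVar X → IsVar B → IsVar X₁ → IsVar B₁ → GenRC f n → h ≫ f = f₁ ≫ g →
    GenFin g d → GenFin h d → ∀ α : HH X, push f α ∈ Alg B →
      ∃ α₁ : HH X₁, push h α₁ = d • α ∧ push f₁ α₁ ∈ Alg B₁

/-- CYLINDERS. `H_2(W × ℙ¹) = H_2(W) ⊕ ℤ [ℙ¹]`, and birational invariance. -/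
def Cylinders : Prop :=
  ∀ {W P : CSch} (κ : P ⟶ cyl W), IsVar W → IsVar P → Birat κ →
    ∀ α : HH P, push (κ ≫ cylPr W) α ∈ Alg W → α ∈ Alg P

/-- RATIONAL CURVES IN BOUNDED FAMILIES. In a smooth projective rationally connected variety over
an algebraically closed field of characteristic zero a given point is joined to a general point by
one irreducible rational curve [Kollar, Miyaoka, Mori, J. Algebraic Geom. 1 (1992); Kollar,
Rational curves on algebraic varieties, Theorem IV.3.9]. The curves through a given point are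
parametrised by a scheme which is defined over the field of definition of the point. For the points
of the fibres of a smooth projective family over a base of finite type the degrees are bounded, by
Noetherian induction, and there are multi-sections of bounded degree over the strata of the base.
Indeterminacies are resolved by [Hironaka 1964]. -/
def JoiningFamilies : Prop :=
  ∀ (n : ℕ) {Z T : CSch} (π : Z ⟶ T), Family n π → ∃ d : ℕ,
    ∀ {X B : CSch} (f : X ⟶ B), IsVar X → IsVar B → GenRC f n → PulledBack f π → Boundedly f d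

/-- MORI FIBRE SPACES. By the minimal model program over `B` [Birkar, Cascini, Hacon, McKernan, J.
Amer. Math. Soc. 23 (2010)] a fibration in rationally connected varieties of dimension at most
`n + 1` is birational over `B` to a Mori fibre space over a variety `S`, which is a fibration over
`B` in rationally connected varieties of dimension at most `n`. The generic fibre of the Mori fibre
space is a terminal Fano variety. The terminal Fano varieties of dimension at most `n + 1` form a
bounded family [Birkar, Singularities of linear systems and boundedness of Fano varieties, Ann. of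
Math. 193 (2021)]. They are embedded by a fixed multiple of the anticanonical divisor, and the
universal family has resolutions over the strata of a finite stratification of the base [Hironaka
1964], which are smooth projective families of rationally connected varieties [Zhang 2006; Hacon,
McKernan 2007]. -/
def MoriFibreSpaces : Prop :=
  ∀ n : ℕ, ∃ (k : ℕ) (Z T : Fin k → CSch) (π : ∀ i, Z i ⟶ T i), (∀ i, Family (n + 1) (π i)) ∧
    ∀ {X B : CSch} (f : X ⟶ B), IsVar X → IsVar B → GenRC f (n + 1) →
      ∃ (X' S : CSch) (p : X' ⟶ X) (h : X' ⟶ S) (g : S ⟶ B) (i : Fin k), IsVar X' ∧ IsVar S ∧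
        Birat p ∧ p ≫ f = h ≫ g ∧ RCFib g n ∧ GenRC h (n + 1) ∧ PulledBack h (π i)

/-- Published theorems about smooth projective complex varieties. -/
structure Known : Prop where
  /-- birational invariance -/
  birational : BirationalInvariance
  /-- the degree formula -/
  degree : DegreeFormula
  /-- transfer -/
  transfer : Transfer
  /-- cylinders -/
  cylinder : Cylinders
  /-- joining families of rational curves -/
  joining : JoiningFamilies
  /-- Mori fibre spaces -/
  mori : MoriFibreSpaces

/-! ### The proof -/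

theorem push_comp {X Y Z : CSch} (f : X ⟶ Y) (g : Y ⟶ Z) (a : HH X) :
    push (f ≫ g) a = push g (push f a) := by
  unfold push
  rw [H2.map_comp]
  rfl

theorem push_mem_Alg {X Y : CSch} (f : X ⟶ Y) {a : HH X} (ha : a ∈ Alg X) : push f a ∈ Alg Y := by
  have h : Alg X ≤ (Alg Y).comap (push f) := by
    unfold Alg
    rw [AddSubgroup.closure_le]
    rintro _ ⟨C, g, c, hC, rfl⟩
    refine AddSubgroup.subset_closure ⟨C, g ≫ f, c, hC, ?_⟩
    exact push_comp _ _ _
  exact h ha

/-- `N` kills the kernel of `H_2(X)/Alg(X) → H_2(B)/Alg(B)` -/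
def Kills (N : ℕ) {X B : CSch} (f : X ⟶ B) : Prop :=
  ∀ α : HH X, push f α ∈ Alg B → N • α ∈ Alg X

/-- `d` kills the classes whose image in the base is algebraic, modulo algebraic classes -/
theorem joinedTo (L : Known) {X B B' : CSch} (f : X ⟶ B) (s : B' ⟶ X) (hX : IsVar X)
    (hB : IsVar B) (hB' : IsVar B') (hβ : Birat (s ≫ f)) {d : ℕ} (h : JoinedTo s d) :
    Kills d f := by
  obtain ⟨W, P, W₀, W₁, κ, H, i₀, i₁, e, hW, hP, hW₀, hW₁, hκ, h0, h1, h2, h3⟩ := h
  intro α hα
  obtain ⟨w₁, hw₁⟩ := L.degree _ d hW₁ hX h3 α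
  obtain ⟨w₀, hw₀⟩ := (L.birational _ hW₀ hW h0).1 (push (i₁ ≫ κ ≫ cylPr W) w₁)
  have h4 : push i₁ w₁ - push i₀ w₀ ∈ Alg P := by
    refine L.cylinder κ hW hP hκ _ ?_
    rw [map_sub, ← push_comp, ← push_comp, hw₀, sub_self]
    exact zero_mem _
  have h5 := push_mem_Alg H h4
  rw [map_sub, ← push_comp, ← push_comp, hw₁, h2, push_comp e] at h5
  have h6 := push_mem_Alg f h5
  rw [map_sub, map_nsmul, ← push_comp s] at h6
  have h7 : push (s ≫ f) (push e w₀) ∈ Alg B := by
    have h8 := sub_mem (nsmul_mem hα d) h6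
    rwa [sub_sub_cancel] at h8
  have h9 : push s (push e w₀) ∈ Alg X :=
    push_mem_Alg s ((L.birational _ hB' hB hβ).2 _ h7)
  have h10 := add_mem h5 h9
  rwa [sub_add_cancel] at h10

theorem boundedly (L : Known) {X B : CSch} (f : X ⟶ B) (n d : ℕ) (hX : IsVar X) (hB : IsVar B)
    (hf : GenRC f n) (h : Boundedly f d) :
    ∃ e e' : ℕ, 0 < e ∧ e ≤ d ∧ 0 < e' ∧ e' ≤ d ∧ Kills (e' * e) f := by
  obtain ⟨B₁, B₂, X₁, g, h, f₁, s, e, e', hB₁, hB₂, hX₁, hsq, hg, hh, hs, he, he', hj⟩ := h
  refine ⟨e, e', hg.1, he, ?_, he', fun α hα => ?_⟩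
  · obtain ⟨W, P, W₀, W₁, κ, H, i₀, i₁, e, hW, hP, hW₀, hW₁, hκ, h0, h1, h2, h3⟩ := hj
    exact h3.1
  · obtain ⟨α₁, hα₁, hα₂⟩ := L.transfer f g h f₁ n e hX hB hX₁ hB₁ hf hsq hg hh α hα
    have h3 := push_mem_Alg h (joinedTo L f₁ s hX₁ hB₁ hB₂ hs hj α₁ hα₂)
    rw [map_nsmul, hα₁] at h3
    rwa [mul_nsmul']

/-- a common multiple of the products of two numbers up to the bounds `d i` -/
theorem exists_multiple {k : ℕ} (d : Fin k → ℕ) :
    ∃ D : ℕ, 0 < D ∧ ∀ i e e', 0 < e → e ≤ d i → 0 < e' → e' ≤ d i → e' * e ∣ D := by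
  refine ⟨(∑ i, d i).factorial * (∑ i, d i).factorial, by positivity, ?_⟩
  intro i e e' he hd he' hd'
  have h1 : d i ≤ ∑ i, d i := Finset.single_le_sum (fun _ _ => Nat.zero_le _) (Finset.mem_univ i)
  exact Nat.mul_dvd_mul (Nat.dvd_factorial he' (hd'.trans h1)) (Nat.dvd_factorial he (hd.trans h1))

theorem uniform (L : Known) (n : ℕ) : ∃ N : ℕ, 0 < N ∧
    ∀ {X B : CSch} (f : X ⟶ B), IsVar X → IsVar B → RCFib f n → Kills N f := by
  induction n with
  | zero =>
    refine ⟨1, one_pos, fun f hX hB hf α hα => ?_⟩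
    rw [one_nsmul]
    exact (L.birational f hX hB hf).2 α hα
  | succ n ih =>
    obtain ⟨M, hM, hMB⟩ := ih
    obtain ⟨k, Z, T, π, hfam, hmfs⟩ := L.mori n
    choose d hd using fun i => L.joining (n + 1) (π i) (hfam i)
    obtain ⟨D, hD, hDd⟩ := exists_multiple d
    refine ⟨D * M, by positivity, fun {X B} f hX hB hf α hα => ?_⟩
    obtain ⟨X', S, p, h, g, i, hX', hS, hp, hsq, hg, hh, hpb⟩ := hmfs f hX hB hf
    obtain ⟨e, e', he0, he, he0', he', hk⟩ := boundedly L h (n + 1) (d i) hX' hS hh
      (hd i h hX' hS hh hpb)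
    obtain ⟨c, hc⟩ := hDd i e e' he0 he he0' he'
    obtain ⟨ζ, rfl⟩ := (L.birational p hX' hX hp).1 α
    rw [← push_comp, hsq, push_comp] at hα
    have h1 : push h (M • ζ) ∈ Alg S := by
      rw [map_nsmul]
      exact hMB g hS hB hg _ hα
    have h2 := nsmul_mem (hk _ h1) c
    have h3 : c • (e' * e) • M • ζ = (D * M) • ζ := by
      rw [← mul_nsmul', ← mul_nsmul', hc]
      congr 1
      ring
    rw [h3] at h2
    have h4 := push_mem_Alg p h2
    rwa [map_nsmul] at h4

/-- For every `n` there is `N > 0` with the following properties. For all morphisms `f : X → B` of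
smooth projective complex varieties with rationally connected general fibres of dimension at most
`n`, and all `α ∈ H_2(X, ℤ)` with algebraic image `f_* α`, the class `N α` is algebraic. For all
smooth projective rationally connected complex varieties `X` of dimension at most `n` and all
`α ∈ H_2(X, ℤ)`, the class `N α` is algebraic. -/
theorem result (L : Known) (n : ℕ) : ∃ N : ℕ, 0 < N ∧
    (∀ {X B : CSch} (f : X ⟶ B), IsVar X → IsVar B → GenRC f n → ∀ α : HH X, push f α ∈ Alg B →
      N • α ∈ Alg X) ∧
    ∀ X : CSch, IsVar X → IsRC X → dim X ≤ n → ∀ α : HH X, N • α ∈ Alg X := by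
  obtain ⟨N, hN, h⟩ := uniform L (n + 1)
  have key : ∀ {X B : CSch} (f : X ⟶ B), IsVar X → IsVar B → GenRC f n → ∀ α : HH X,
      push f α ∈ Alg B → N • α ∈ Alg X := by
    intro X B f hX hB hf α hα
    refine h f hX hB ?_ α hα
    obtain ⟨U, hU, h2⟩ := hf
    exact ⟨U, hU, fun b hb => ⟨(h2 b hb).1, (h2 b hb).2.1,
      (h2 b hb).2.2.trans (by exact_mod_cast Nat.le_succ n)⟩⟩
  refine ⟨N, hN, key, fun X hX hR hd α => ?_⟩
  refine key (toPt X) hX (isVar_ptC hX) (genRC_toPt hX hR hd) α ?_
  rw [hh_ptC (push (toPt X) α)]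
  exact zero_mem _

end Pool.Agent.Results.MP_002cd3_ag.UniformBound
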